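import Pool.Agent.Helper35_AEU.DefsMain

/-!
AEU, Part I: the area of an inner parallel body as a quadratic polynomial plus the contributions
of the triples of sides.
-/

namespace Pool.Agent.AEU

open MeasureTheory Complex Filter Topology Pool.Agent.H62T
open Pool.Agent.H16F (Sublin ind)

/-- no homothetic copy of the body touches four side lines -/
def NoTie (P : Finset HP) (h : ℂ → ℝ) : Prop :=
  ∀ (σ : ℝ) (x : ℂ), 0 < σ → ∀ T ⊆ P, T.card = 4 → ∃ s ∈ T, σ * h s.1 + ip s.1 x ≠ s.2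

/-- pairwise different directions -/
def Nonpar (P : Finset HP) : Prop := ∀ s ∈ P, ∀ t ∈ P, s ≠ t → dt s.1 t.1 ≠ 0

/-- DEATH: the area of the inner parallel body -/
def DeathStmt : Prop :=
  ∀ P : Finset HP, Pg P → Nonpar P → ∃ (w0 : ℝ) (w1 : HP → ℝ) (w2 : HP → HP → ℝ),
    ∀ h : ℂ → ℝ, Sublin h → NoTie P h →
      (volume {x : ℂ | ∀ s ∈ P, ip s.1 x ≤ s.2 - h s.1}).toReal =
        w0 + ∑ s ∈ P, w1 s * h s.1 + ∑ s ∈ P, ∑ r ∈ P, w2 s r * (h s.1 * h r.1)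
          + ∑ S ∈ P.powersetCard 3, ind (Ev P S h) * Zs S h

/-- EXPECT: the heat trace of a polygon without ties -/
def ExpectStmt : Prop :=
  ∀ P : Finset HP, Pg P → Nonpar P → (∀ᵐ ω ∂PP, NoTie P (hs ω)) →
    ∃ a0 a1 a2 : ℝ, ∀ t : ℝ, 0 < t →
      4 * Real.pi * t * ∑' k, Real.exp (-(Pool.Agent.H16Iso.dirEig (opn P) k * t))
        = a0 + a1 * Real.sqrt t + a2 * t + RP P t

end Pool.Agent.AEU
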