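import Pool.Agent.Helper62_AEU.Stmt
import Pool.Agent.Helper35_AEU.EvX
import Pool.Agent.Helper62_TRI.MainOf
import Pool.Agent.Helper10_Fine.Core
import Pool.Agent.Helper13_Fine.Law2

/-!
AEU, Part I: the heat trace as a polynomial in the square root of the time plus the expected
contributions of the triples of sides.
-/

namespace Pool.Agent.AEU.H62

open MeasureTheory Complex Filter Topology ProbabilityTheory Pool.Agent.H16Iso Pool.Agent.H62T
open Pool.Agent.AEU Pool.Agent.AEU.H35 Pool.Agent.H62T.H9 Pool.Agent.H16F.H10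
open Pool.Agent.H16F (Sublin ind)
open scoped ENNReal NNReal

theorem momS : MomStatement := mom osc_stmt

/-! ### Small facts -/

theorem ind_pos {p : Prop} (h : p) : ind p = 1 := by unfold ind; rw [if_pos h]

theorem ind_neg {p : Prop} (h : ¬ p) : ind p = 0 := by unfold ind; rw [if_neg h]

theorem ind_congr {p q : Prop} (h : p ↔ q) : ind p = ind q := by
  rw [propext h]

theorem ind_nonneg (p : Prop) : 0 ≤ ind p := by
  by_cases h : p
  · rw [ind_pos h]; exact zero_le_one
  · rw [ind_neg h]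

theorem ind_le (p : Prop) : ind p ≤ 1 := by
  by_cases h : p
  · rw [ind_pos h]
  · rw [ind_neg h]; exact zero_le_one

theorem sublin_smul {h : ℂ → ℝ} (hh : Sublin h) {c : ℝ} (hc : 0 ≤ c) :
    Sublin fun w => c * h w := by
  refine ⟨fun a b => ?_, fun r a hr => ?_⟩
  · have := mul_le_mul_of_nonneg_left (hh.1 a b) hc
    show c * h (a + b) ≤ c * h a + c * h b
    linarith
  · show c * h ((r : ℂ) * a) = r * (c * h a)
    rw [hh.2 r a hr]; ring

theorem noTie_smul {P : Finset HP} {h : ℂ → ℝ} (hh : NoTie P h) {c : ℝ} (hc : 0 < c) :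
    NoTie P fun w => c * h w := by
  intro σ x hσ T hT h4
  obtain ⟨s, hs, hne⟩ := hh (σ * c) x (mul_pos hσ hc) T hT h4
  refine ⟨s, hs, ?_⟩
  rw [← mul_assoc]
  exact hne

/-! ### Three sides are never concurrent -/

theorem D0_swap (a b c : HP) : D0 b a c = -D0 a b c := by
  unfold D0 dt; ring

theorem D0_cyc (a b c : HP) : D0 b c a = D0 a b c := by
  unfold D0; ring

theorem side_point {P : Finset HP} (hP : Pg P) {s : HP} (hs : s ∈ P) :
    ∃ x, ip s.1 x = s.2 ∧ ∀ t ∈ P, t ≠ s → ip t.1 x < t.2 := hP.side s hs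

/-- a side is not redundant -/
theorem not_cone {P : Finset HP} (hP : Pg P) {a b c : HP} (ha : a ∈ P) (hb : b ∈ P) (hc : c ∈ P)
    (hac : a ≠ c) (hbc : b ≠ c) {p q r : ℝ} (hp : 0 < p) (hq : 0 < q) (hr : 0 < r)
    (h1 : (p : ℂ) * a.1 + (q : ℂ) * b.1 = (r : ℂ) * c.1) : r * c.2 < p * a.2 + q * b.2 := by
  obtain ⟨x, hx, hx'⟩ := hP.side c hc
  have e : p * ip a.1 x + q * ip b.1 x = r * ip c.1 x := by
    rw [← H59.ip_mul_left, ← H59.ip_mul_left, ← H59.ip_mul_left, ← H59.ip_add_left, h1]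
  rw [← hx, ← e]
  have := mul_lt_mul_of_pos_left (hx' a ha hac) hp
  have := mul_lt_mul_of_pos_left (hx' b hb hbc) hq
  linarith

/-- three sides with positive dependency -/
theorem spanning_pos {P : Finset HP} (hP : Pg P) {a b c : HP} (ha : a ∈ P) (hb : b ∈ P)
    (hc : c ∈ P) (hab : a ≠ b) (hac : a ≠ c) {p q r : ℝ} (hp : 0 < p) (hq : 0 < q) (hr : 0 < r)
    (h1 : (p : ℂ) * a.1 + (q : ℂ) * b.1 + (r : ℂ) * c.1 = 0) :
    0 < p * a.2 + q * b.2 + r * c.2 := by
  obtain ⟨x, hx, hx'⟩ := hP.side a ha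
  have e : p * ip a.1 x + q * ip b.1 x + r * ip c.1 x = 0 := by
    rw [← H59.ip_mul_left, ← H59.ip_mul_left, ← H59.ip_mul_left, ← H59.ip_add_left,
      ← H59.ip_add_left, h1]
    unfold ip; simp
  rw [← e, ← hx]
  have := mul_lt_mul_of_pos_left (hx' b hb hab.symm) hq
  have := mul_lt_mul_of_pos_left (hx' c hc hac.symm) hr
  linarith

theorem dep (a b c : ℂ) : (dt b c : ℂ) * a + (dt c a : ℂ) * b + (dt a b : ℂ) * c = 0 := by
  unfold dt
  apply Complex.ext
  · simp; ring
  · simp; ring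

theorem D0_ne {P : Finset HP} (hP : Pg P) (hN : Nonpar P) {a b c : HP} (ha : a ∈ P) (hb : b ∈ P)
    (hc : c ∈ P) (hab : a ≠ b) (hac : a ≠ c) (hbc : b ≠ c) : D0 a b c ≠ 0 := by
  have hdep := dep a.1 b.1 c.1
  have n1 : dt b.1 c.1 ≠ 0 := hN b hb c hc hbc
  have n2 : dt c.1 a.1 ≠ 0 := hN c hc a ha hac.symm
  have n3 : dt a.1 b.1 ≠ 0 := hN a ha b hb hab
  obtain ⟨p, hp⟩ : ∃ p, p = dt b.1 c.1 := ⟨_, rfl⟩
  obtain ⟨q, hq⟩ : ∃ q, q = dt c.1 a.1 := ⟨_, rfl⟩
  obtain ⟨r, hr⟩ : ∃ r, r = dt a.1 b.1 := ⟨_, rfl⟩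
  have hD : D0 a b c = p * a.2 + q * b.2 + r * c.2 := by unfold D0; rw [hp, hq, hr]
  rw [← hp, ← hq, ← hr] at hdep
  rw [← hp] at n1
  rw [← hq] at n2
  rw [← hr] at n3
  intro h0
  rw [hD] at h0
  rcases lt_or_gt_of_ne n1 with h1 | h1 <;> rcases lt_or_gt_of_ne n2 with h2 | h2 <;>
    rcases lt_or_gt_of_ne n3 with h3 | h3
  · have := spanning_pos hP ha hb hc hab hac (p := -p) (q := -q) (r := -r) (by linarith)
      (by linarith) (by linarith) (by
        push_cast
        linear_combination -hdep)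
    linarith
  · have := not_cone hP ha hb hc hac hbc (p := -p) (q := -q) (r := r) (by linarith)
      (by linarith) (by linarith) (by
        push_cast
        linear_combination -hdep)
    linarith
  · have := not_cone hP ha hc hb hab (Ne.symm hbc) (p := -p) (q := -r) (r := q) (by linarith)
      (by linarith) (by linarith) (by
        push_cast
        linear_combination -hdep)
    linarith
  · have := not_cone hP hb hc ha (Ne.symm hab) (Ne.symm hac) (p := q) (q := r) (r := -p)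
      (by linarith) (by linarith) (by linarith) (by
        push_cast
        linear_combination hdep)
    linarith
  · have := not_cone hP hb hc ha (Ne.symm hab) (Ne.symm hac) (p := -q) (q := -r) (r := p)
      (by linarith) (by linarith) (by linarith) (by
        push_cast
        linear_combination -hdep)
    linarith
  · have := not_cone hP ha hc hb hab (Ne.symm hbc) (p := p) (q := r) (r := -q) (by linarith)
      (by linarith) (by linarith) (by
        push_cast
        linear_combination hdep)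
    linarith
  · have := not_cone hP ha hb hc hac hbc (p := p) (q := q) (r := -r) (by linarith)
      (by linarith) (by linarith) (by
        push_cast
        linear_combination hdep)
    linarith
  · have := spanning_pos hP ha hb hc hab hac (p := p) (q := q) (r := r) (by linarith)
      (by linarith) (by linarith) (by
        linear_combination hdep)
    linarith

/-- every triple of sides has a counterclockwise order -/
theorem triple_order {P : Finset HP} (hP : Pg P) (hN : Nonpar P) {S : Finset HP}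
    (hS : S ∈ P.powersetCard 3) : ∃ a b c : HP, a ∈ P ∧ b ∈ P ∧ c ∈ P ∧ a ≠ b ∧ a ≠ c ∧ b ≠ c ∧
      (∀ s, s ∈ S ↔ s = a ∨ s = b ∨ s = c) ∧ 0 < D0 a b c := by
  classical
  obtain ⟨hSP, h3⟩ := Finset.mem_powersetCard.1 hS
  obtain ⟨a, b, c, hab, hac, hbc, rfl⟩ := Finset.card_eq_three.1 h3
  have ha : a ∈ P := hSP (by simp)
  have hb : b ∈ P := hSP (by simp)
  have hc : c ∈ P := hSP (by simp)
  rcases lt_or_gt_of_ne (D0_ne hP hN ha hb hc hab hac hbc) with h | h
  · refine ⟨b, a, c, hb, ha, hc, hab.symm, hbc, hac, fun s => ?_, ?_⟩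
    · simp only [Finset.mem_insert, Finset.mem_singleton]
      tauto
    · rw [D0_swap]; linarith
  · exact ⟨a, b, c, ha, hb, hc, hab, hac, hbc, fun s => by simp, h⟩

/-- without ties the event is given by the explicit form -/
theorem ev_iff_X {P : Finset HP} (hN : Nonpar P) {S : Finset HP} {a b c : HP}
    (ha : a ∈ P) (hb : b ∈ P) (hc : c ∈ P) (hab : a ≠ b) (hac : a ≠ c) (hbc : b ≠ c)
    (hS : ∀ s, s ∈ S ↔ s = a ∨ s = b ∨ s = c) (hD : 0 < D0 a b c) {h : ℂ → ℝ}
    (hT : NoTie P h) : Ev P S h ↔ EvX P a b c h := by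
  classical
  rw [← ev_iff (hN a ha b hb hab) hD h]
  constructor
  · rintro ⟨σ, x, h0, h1, hf, ht⟩
    have hmem : ∀ s ∈ S, σ * h s.1 + ip s.1 x = s.2 := fun s hs => by
      rw [← ht] at hs
      exact (Finset.mem_filter.1 hs).2
    have := hmem a ((hS a).2 (Or.inl rfl))
    have := hmem b ((hS b).2 (Or.inr (Or.inl rfl)))
    have := hmem c ((hS c).2 (Or.inr (Or.inr rfl)))
    refine ⟨σ, h0, h1, x, fun s hs => ?_, by linarith, by linarith, by linarith⟩
    have := hf s hs
    linarith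
  · rintro ⟨σ, h0, h1, x, hf, h2, h3, h4⟩
    have hS3 : S = {a, b, c} := by
      ext s
      rw [hS s]
      simp
    have hcard : S.card = 3 := by
      rw [hS3]
      exact Finset.card_eq_three.2 ⟨a, b, c, hab, hac, hbc, rfl⟩
    refine ⟨σ, x, h0, h1, fun s hs => ?_, ?_⟩
    · have := hf s hs
      show σ * h s.1 + ip s.1 x ≤ s.2
      linarith
    · have hsub : S ⊆ touch P fun w => σ * h w + ip w x := by
        intro s hs
        rcases (hS s).1 hs with rfl | rfl | rfl
        · exact Finset.mem_filter.2 ⟨ha, by linarith⟩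
        · exact Finset.mem_filter.2 ⟨hb, by linarith⟩
        · exact Finset.mem_filter.2 ⟨hc, by linarith⟩
      by_contra hne
      obtain ⟨d, hd, hdS⟩ : ∃ d ∈ touch P (fun w => σ * h w + ip w x), d ∉ S := by
        by_contra hcon
        push Not at hcon
        exact hne (Finset.Subset.antisymm hcon hsub)
      have hT4 : (insert d S).card = 4 := by rw [Finset.card_insert_of_notMem hdS, hcard]
      have hTP : insert d S ⊆ P := by
        intro s hs
        rcases Finset.mem_insert.1 hs with rfl | hs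
        · exact (Finset.mem_filter.1 hd).1
        · exact (Finset.mem_filter.1 (hsub hs)).1
      obtain ⟨s, hs, hs'⟩ := hT σ x h0 _ hTP hT4
      rcases Finset.mem_insert.1 hs with rfl | hs
      · exact hs' (Finset.mem_filter.1 hd).2
      · exact hs' (Finset.mem_filter.1 (hsub hs)).2

/-! ### Moments -/

theorem am_hs (u : ℂ) : AM fun ω => hs ω u := AM.hs momS u

theorem am_ZZ (u₁ u₂ u₃ : ℂ) (D₀ s : ℝ) : AM fun ω => ZZ u₁ u₂ u₃ D₀ (fun u => s * hs ω u) := by
  have e : (fun ω => ZZ u₁ u₂ u₃ D₀ (fun u => s * hs ω u)) = fun ω =>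
      (-(2 * pr u₁ u₂ u₃)⁻¹) * (max ((dt u₂ u₃ * s) * hs ω u₁ + ((dt u₃ u₁ * s) * hs ω u₂ +
        ((dt u₁ u₂ * s) * hs ω u₃ + (-D₀)))) 0) ^ 2 := by
    funext ω
    unfold ZZ DD
    have h1 : min (D₀ - (dt u₂ u₃ * (s * hs ω u₁) + dt u₃ u₁ * (s * hs ω u₂) +
        dt u₁ u₂ * (s * hs ω u₃))) 0 = -max ((dt u₂ u₃ * s) * hs ω u₁ +
        ((dt u₃ u₁ * s) * hs ω u₂ + ((dt u₁ u₂ * s) * hs ω u₃ + (-D₀)))) 0 := by
      rw [← min_neg_neg, neg_zero]
      congr 1
      ring
    rw [h1, div_eq_mul_inv]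
    ring
  rw [e]
  refine AM.const_mul _ (AM.pow (am_max ?_) 2)
  exact ((am_hs u₁).const_mul _).add (((am_hs u₂).const_mul _).add
    (((am_hs u₃).const_mul _).add (AM.const _)))

theorem am_Zs (S : Finset HP) (s : ℝ) : AM fun ω => Zs S (fun u => s * hs ω u) := by
  classical
  unfold Zs
  refine AM.const_mul _ (AM.sum _ fun a _ => AM.sum _ fun b _ => AM.sum _ fun c _ => ?_)
  by_cases h : 0 < D0 a b c
  · simp only [if_pos h]
    exact am_ZZ _ _ _ _ _
  · simp only [if_neg h]
    exact AM.const 0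

theorem am_ind {A : Sp → Prop} (hA : MeasurableSet {ω | A ω}) : AM fun ω => ind (A ω) := by
  have hm : Measurable fun ω => ind (A ω) := H35.measurable_ind hA
  refine ⟨hm.aestronglyMeasurable, fun p => ?_⟩
  refine Integrable.mono' (integrable_const (1:ℝ)) (hm.aestronglyMeasurable.norm.pow p) ?_
  refine Eventually.of_forall fun ω => ?_
  rw [Real.norm_of_nonneg (by positivity), abs_of_nonneg (ind_nonneg _)]
  exact pow_le_one₀ (ind_nonneg _) (ind_le _)

theorem am_congr {f g : Sp → ℝ} (hf : AM f) (h : f =ᵐ[PP] g) : AM g := by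
  refine ⟨hf.1.congr h, fun p => (hf.2 p).congr ?_⟩
  filter_upwards [h] with ω hω
  rw [hω]

/-- the contribution of a triple has all moments -/
theorem am_term {P : Finset HP} (hP : Pg P) (hN : Nonpar P) (hT : ∀ᵐ ω ∂PP, NoTie P (hs ω))
    {S : Finset HP} (hS : S ∈ P.powersetCard 3) {s : ℝ} (hs0 : 0 < s) :
    AM fun ω => ind (Ev P S fun u => s * hs ω u) * Zs S (fun u => s * hs ω u) := by
  obtain ⟨a, b, c, ha, hb, hc, hab, hac, hbc, hS', hD⟩ := triple_order hP hN hS
  have h1 : AM fun ω => ind (EvX P a b c fun u => s * hs ω u) * Zs S (fun u => s * hs ω u) := by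
    refine AM.mul (am_ind ?_) (am_Zs S s)
    exact meas_EvX P a b c (fun ω u => s * hs ω u) fun u => (momS.1 u).const_mul s
  refine am_congr h1 ?_
  filter_upwards [hT] with ω hω
  rw [ind_congr (ev_iff_X hN ha hb hc hab hac hbc hS' hD (noTie_smul hω hs0))]

/-! ### The open polygon -/

theorem opn_nonempty {P : Finset HP} (hP : Pg P) : (opn P).Nonempty := by
  classical
  have h : ∀ s : HP, ∃ x, s ∈ P → ip s.1 x = s.2 ∧ ∀ t ∈ P, t ≠ s → ip t.1 x < t.2 := by
    intro s
    by_cases hs : s ∈ P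
    · obtain ⟨x, hx⟩ := hP.side s hs
      exact ⟨x, fun _ => hx⟩
    · exact ⟨0, fun h => absurd h hs⟩
  choose x hx using h
  have hc : (0:ℝ) < P.card := by exact_mod_cast (by have := hP.card; omega : 0 < P.card)
  refine ⟨(((P.card : ℝ)⁻¹ : ℝ) : ℂ) * ∑ s ∈ P, x s, fun t ht => ?_⟩
  rw [H59.ip_mul_right, H59.ip_sum_right, inv_mul_lt_iff₀ hc]
  have h1 : ∑ s ∈ P, ip t.1 (x s) < ∑ _s ∈ P, t.2 := by
    refine Finset.sum_lt_sum (fun s hs => ?_) ?_
    · by_cases hst : t = s
      · rw [hst]; exact ((hx s hs).1).le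
      · exact ((hx s hs).2 t ht hst).le
    · obtain ⟨s, hs, hst⟩ : ∃ s ∈ P, s ≠ t := by
        by_contra hcon
        push Not at hcon
        have : P ⊆ {t} := fun s hs => Finset.mem_singleton.2 (hcon s hs)
        have := Finset.card_le_card this
        rw [Finset.card_singleton] at this
        have := hP.card
        omega
      exact ⟨s, hs, (hx s hs).2 t ht (Ne.symm hst)⟩
  rwa [Finset.sum_const, nsmul_eq_mul] at h1

/-! ### The expectation -/

theorem expect (hD : DeathStmt) : ExpectStmt := by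
  classical
  intro P hP hN hT
  obtain ⟨w0, w1, w2, hW⟩ := hD P hP hN
  obtain ⟨n, u, H, hu⟩ : ∃ (n : ℕ) (u : Fin n → ℂ) (H : Fin n → ℝ),
      ∀ p : ℂ → ℝ → Prop, (∀ i, p (u i) (H i)) ↔ ∀ s ∈ P, p s.1 s.2 := by
    refine ⟨P.card, fun i => (P.equivFin.symm i).1.1, fun i => (P.equivFin.symm i).1.2,
      fun p => ⟨fun h s hs => ?_, fun h i => h _ (P.equivFin.symm i).2⟩⟩
    have := h (P.equivFin ⟨s, hs⟩)
    simpa using this
  have hPoly : opn P = Poly u H := by
    ext x
    exact (hu fun a b => ip a x < b).symm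
  have hunit : ∀ i, ‖u i‖ = 1 := (hu fun a _ => ‖a‖ = 1).2 hP.unit
  have hb : Bornology.IsBounded (Poly u H) := by
    rw [← hPoly]
    exact hP.bdd.subset fun x hx s hs => (hx s hs).le
  have hne : (Poly u H).Nonempty := by rw [← hPoly]; exact opn_nonempty hP
  have hVol : ∀ h : ℂ → ℝ, Vol u H (fun i => h (u i)) =
      (volume {x : ℂ | ∀ s ∈ P, ip s.1 x ≤ s.2 - h s.1}).toReal := by
    intro h
    unfold Vol
    congr 2
    ext x
    exact hu fun a b => ip a x ≤ b - h a
  refine ⟨w0, ∫ ω, ∑ s ∈ P, w1 s * hs ω s.1 ∂PP,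
    ∫ ω, ∑ s ∈ P, ∑ r ∈ P, w2 s r * (hs ω s.1 * hs ω r.1) ∂PP, fun t ht => ?_⟩
  have hst : 0 < Real.sqrt t := Real.sqrt_pos.2 ht
  rw [hPoly, heat_all n u H hunit hb hne t ht]
  have a1 : AM fun ω => ∑ s ∈ P, w1 s * hs ω s.1 :=
    AM.sum _ fun s _ => (am_hs s.1).const_mul _
  have a2 : AM fun ω => ∑ s ∈ P, ∑ r ∈ P, w2 s r * (hs ω s.1 * hs ω r.1) :=
    AM.sum _ fun s _ => AM.sum _ fun r _ => ((am_hs s.1).mul (am_hs r.1)).const_mul _
  have a3 : ∀ S ∈ P.powersetCard 3, AM fun ω => ind (Ev P S fun u => Real.sqrt t * hs ω u) *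
      Zs S (fun u => Real.sqrt t * hs ω u) := fun S hS => am_term hP hN hT hS hst
  have key : (fun ω => Vol u H fun i => Real.sqrt t * hs ω (u i)) =ᵐ[PP] fun ω =>
      (w0 + Real.sqrt t * ∑ s ∈ P, w1 s * hs ω s.1) +
        (t * ∑ s ∈ P, ∑ r ∈ P, w2 s r * (hs ω s.1 * hs ω r.1) +
        ∑ S ∈ P.powersetCard 3, ind (Ev P S fun u => Real.sqrt t * hs ω u) *
          Zs S (fun u => Real.sqrt t * hs ω u)) := by
    filter_upwards [hT, H16F.H13.ae_sublin] with ω hω hsub
    have h1 := hVol fun w => Real.sqrt t * hs ω w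
    have h2 := hW (fun w => Real.sqrt t * hs ω w) (sublin_smul hsub hst.le) (noTie_smul hω hst)
    rw [← h1] at h2
    refine h2.trans ?_
    have e1 : ∑ s ∈ P, w1 s * (Real.sqrt t * hs ω s.1) =
        Real.sqrt t * ∑ s ∈ P, w1 s * hs ω s.1 := by
      rw [Finset.mul_sum]
      exact Finset.sum_congr rfl fun s _ => by ring
    have e2 : ∑ s ∈ P, ∑ r ∈ P, w2 s r * (Real.sqrt t * hs ω s.1 * (Real.sqrt t * hs ω r.1)) =
        t * ∑ s ∈ P, ∑ r ∈ P, w2 s r * (hs ω s.1 * hs ω r.1) := by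
      rw [Finset.mul_sum]
      refine Finset.sum_congr rfl fun s _ => ?_
      rw [Finset.mul_sum]
      refine Finset.sum_congr rfl fun r _ => ?_
      have : Real.sqrt t * Real.sqrt t = t := Real.mul_self_sqrt ht.le
      linear_combination (w2 s r * (hs ω s.1 * hs ω r.1)) * this
    rw [e1, e2]
    ring
  rw [integral_congr_ae key]
  have i1 : Integrable (fun ω => w0 + Real.sqrt t * ∑ s ∈ P, w1 s * hs ω s.1) PP :=
    ((AM.const w0).add (a1.const_mul _)).integrable
  have i3 : Integrable (fun ω => ∑ S ∈ P.powersetCard 3,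
      ind (Ev P S fun u => Real.sqrt t * hs ω u) * Zs S (fun u => Real.sqrt t * hs ω u)) PP :=
    (AM.sum _ a3).integrable
  have i2 : Integrable (fun ω => t * ∑ s ∈ P, ∑ r ∈ P, w2 s r * (hs ω s.1 * hs ω r.1)) PP :=
    (a2.const_mul _).integrable
  have i23 : Integrable (fun ω => t * ∑ s ∈ P, ∑ r ∈ P, w2 s r * (hs ω s.1 * hs ω r.1) +
      ∑ S ∈ P.powersetCard 3, ind (Ev P S fun u => Real.sqrt t * hs ω u) *
        Zs S (fun u => Real.sqrt t * hs ω u)) PP := i2.add i3
  rw [integral_add i1 i23, integral_add i2 i3,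
    integral_add (integrable_const _) (a1.const_mul _).integrable, integral_const_mul,
    integral_const_mul, integral_finsetSum _ fun S hS => (a3 S hS).integrable]
  simp only [integral_const, probReal_univ, smul_eq_mul, one_mul]
  unfold RP TPS
  ring

end Pool.Agent.AEU.H62
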