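import Pool.Agent.Helper13_Fine.Law2
import Pool.Agent.Helper13_Fine.Ut
import Pool.Agent.Helper59_TRI.VZ

/-!
Upper tail of the perimeter of the convex hull of the Brownian loop.
-/

namespace Pool.Agent.AEU62

open MeasureTheory Complex Filter Topology ProbabilityTheory Pool.Agent.H16Iso Pool.Agent.H62T
open Pool.Agent.H16F Pool.Agent.H62T.H59
open scoped ENNReal NNReal

/-- the perimeter of a convex body in terms of its support function -/
noncomputable def lam (h : ℂ → ℝ) : ℝ := ∫ θ in (0:ℝ)..(2 * Real.pi), h (Complex.exp (θ * I))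

/-! ### The bound for the variance -/

theorem ff_meas {n : ℕ} (p : Fin n → ℂ) (τ : Fin n → ℝ) : Measurable (ff p τ) := by
  unfold ff
  refine Finset.measurable_sum _ fun i _ => ?_
  refine Measurable.mul_const ?_ _
  refine Complex.measurable_ofReal.comp ?_
  unfold g
  exact (Measurable.ite measurableSet_Iio measurable_const measurable_const).sub measurable_const

theorem g_abs {a s : ℝ} (h0 : 0 ≤ a) (h1 : a ≤ 1) : |g a s| ≤ 1 := by
  unfold g
  rw [abs_le]
  split_ifs <;> constructor <;> linarith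

theorem ff_bdd {n : ℕ} (p : Fin n → ℂ) {τ : Fin n → ℝ} (h : Tm τ) (s : ℝ) :
    ‖ff p τ s‖ ≤ ∑ i, ‖p i‖ := by
  unfold ff
  refine (norm_sum_le _ _).trans (Finset.sum_le_sum fun i _ => ?_)
  rw [norm_mul, Complex.norm_real, Real.norm_eq_abs]
  have := g_abs (s := s) (h i).1 (h i).2
  nlinarith [norm_nonneg (p i), abs_nonneg (g (τ i) s)]

theorem ii_of_bdd {f : ℝ → ℝ} (hf : Measurable f) (C : ℝ) (hC : ∀ s, |f s| ≤ C) :
    IntervalIntegrable f volume 0 1 := by
  refine (intervalIntegrable_iff_integrableOn_Ioc_of_le zero_le_one).2 ?_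
  refine Measure.integrableOn_of_bounded (M := C) (by simp) hf.aestronglyMeasurable ?_
  filter_upwards with s
  exact hC s

theorem ip_meas {a : ℂ} {f : ℝ → ℂ} (hf : Measurable f) : Measurable fun s => ip a (f s) := by
  unfold ip
  exact ((Complex.measurable_re.comp hf).const_mul _).add
    ((Complex.measurable_im.comp hf).const_mul _)

theorem ip_abs_le (a b : ℂ) : |ip a b| ≤ ‖a‖ * ‖b‖ := by
  have h1 : ip a b = ((starRingEnd ℂ) a * b).re := by
    unfold ip
    simp
  rw [h1, ← Complex.norm_conj a, ← norm_mul]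
  exact Complex.abs_re_le_norm _

theorem int_g {a : ℝ} (h0 : 0 ≤ a) (h1 : a ≤ 1) :
    IntervalIntegrable (fun s => g a s) volume 0 1 ∧ ∫ s in (0:ℝ)..1, g a s = 0 := by
  unfold g
  refine ⟨(intg_ind h0 h1).sub intervalIntegrable_const, ?_⟩
  rw [intervalIntegral.integral_sub (intg_ind h0 h1) intervalIntegrable_const, int_ind h0 h1]
  simp

theorem int_ip_ff {n : ℕ} (p : Fin n → ℂ) {τ : Fin n → ℝ} (h : Tm τ) (a : ℂ) :
    ∫ s in (0:ℝ)..1, ip a (ff p τ s) = 0 := by
  have e : (fun s => ip a (ff p τ s)) = fun s => ∑ i, g (τ i) s * ip a (p i) := by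
    funext s
    unfold ff
    rw [ip_sum_right]
    exact Finset.sum_congr rfl fun i _ => ip_mul_right _ _ _
  rw [e, intervalIntegral.integral_finsetSum fun i _ => (int_g (h i).1 (h i).2).1.mul_const _]
  refine Finset.sum_eq_zero fun i _ => ?_
  rw [intervalIntegral.integral_mul_const, (int_g (h i).1 (h i).2).2, zero_mul]

theorem pair_bound {n : ℕ} (p : Fin n → ℂ) {τ : Fin n → ℝ} (h : Tm τ) (a : ℂ) {x y : ℝ}
    (_hx0 : 0 ≤ x) (_hx1 : x ≤ 1) (_hy0 : 0 ≤ y) (_hy1 : y ≤ 1) :
    ∫ s in (0:ℝ)..1, (g x s - g y s) * ip a (ff p τ s)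
      ≤ 1 / 2 * ∫ s in (0:ℝ)..1, |ip a (ff p τ s)| := by
  have hF := ff_meas p τ
  set B : ℝ := ‖a‖ * ∑ i, ‖p i‖ with hB
  have hB0 : 0 ≤ B := by positivity
  have hb : ∀ s, |ip a (ff p τ s)| ≤ B := fun s =>
    (ip_abs_le _ _).trans (mul_le_mul_of_nonneg_left (ff_bdd p h s) (norm_nonneg _))
  have hgm : ∀ z : ℝ, Measurable fun s => g z s := fun z => by
    unfold g
    exact (Measurable.ite measurableSet_Iio measurable_const measurable_const).sub measurable_const
  obtain ⟨c, hc⟩ : ∃ c : ℝ, ∀ s, |g x s - g y s - c| ≤ 1 / 2 := by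
    rcases le_total y x with hyx | hyx
    · refine ⟨1 / 2 - (x - y), fun s => ?_⟩
      unfold g
      by_cases h1 : s < x <;> by_cases h2 : s < y
      · rw [if_pos h1, if_pos h2, abs_le]; constructor <;> linarith
      · rw [if_pos h1, if_neg h2, abs_le]; constructor <;> linarith
      · exact absurd (lt_of_lt_of_le h2 hyx) h1
      · rw [if_neg h1, if_neg h2, abs_le]; constructor <;> linarith
    · refine ⟨-(1 / 2) - (x - y), fun s => ?_⟩
      unfold g
      by_cases h1 : s < x <;> by_cases h2 : s < y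
      · rw [if_pos h1, if_pos h2, abs_le]; constructor <;> linarith
      · exact absurd (lt_of_lt_of_le h1 hyx) h2
      · rw [if_neg h1, if_pos h2, abs_le]; constructor <;> linarith
      · rw [if_neg h1, if_neg h2, abs_le]; constructor <;> linarith
  have i0 : IntervalIntegrable (fun s => ip a (ff p τ s)) volume 0 1 :=
    ii_of_bdd (ip_meas hF) B hb
  have i1 : IntervalIntegrable (fun s => (g x s - g y s - c) * ip a (ff p τ s)) volume 0 1 := by
    refine ii_of_bdd ((((hgm x).sub (hgm y)).sub measurable_const).mul (ip_meas hF)) (1 / 2 * B)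
      fun s => ?_
    rw [abs_mul]
    exact mul_le_mul (hc s) (hb s) (abs_nonneg _) (by norm_num)
  have e1 : (fun s => (g x s - g y s) * ip a (ff p τ s)) =
      fun s => (g x s - g y s - c) * ip a (ff p τ s) + c * ip a (ff p τ s) := by
    funext s; ring
  rw [e1, intervalIntegral.integral_add i1 (i0.const_mul c), intervalIntegral.integral_const_mul,
    int_ip_ff p h a, mul_zero, add_zero, ← intervalIntegral.integral_const_mul]
  refine intervalIntegral.integral_mono_on zero_le_one i1 (i0.abs.const_mul _) fun s _ => ?_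
  refine (le_abs_self _).trans ?_
  rw [abs_mul]
  exact mul_le_mul_of_nonneg_right (hc s) (abs_nonneg _)

/-- the variance of the circumscribed perimeter -/
theorem vr_le_of {M : ℕ} (a : Fin M → ℂ) {κ : ℝ} (hκ : 0 < κ)
    (ha : ∀ v : ℂ, ∑ k, |ip (a k) v| ≤ 2 * κ * ‖v‖) {τ : Fin (M + M) → ℝ} (h : Tm τ) :
    vr (Fin.append a fun k => -a k) τ ≤ 2 * κ ^ 2 := by
  set p : Fin (M + M) → ℂ := Fin.append a fun k => -a k with hp
  have hF := ff_meas p τ
  have hv := vr_eq p h
  set V : ℝ := ∫ s in (0:ℝ)..1, ip (ff p τ s) (ff p τ s) with hV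
  set S : ℝ := ∑ i, ‖p i‖ with hS
  have hS0 : 0 ≤ S := Finset.sum_nonneg fun i _ => norm_nonneg _
  have hSb : ∀ s, ‖ff p τ s‖ ≤ S := fun s => ff_bdd p h s
  have hgm : ∀ z : ℝ, Measurable fun s => g z s := fun z => by
    unfold g
    exact (Measurable.ite measurableSet_Iio measurable_const measurable_const).sub measurable_const
  have iN : IntervalIntegrable (fun s => ‖ff p τ s‖) volume 0 1 :=
    ii_of_bdd hF.norm S fun s => by rw [abs_of_nonneg (norm_nonneg _)]; exact hSb s
  have iA : ∀ k, IntervalIntegrable (fun s => |ip (a k) (ff p τ s)|) volume 0 1 := fun k =>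
    ii_of_bdd (ip_meas hF).abs (‖a k‖ * S) fun s => by
      rw [abs_abs]
      exact (ip_abs_le _ _).trans (mul_le_mul_of_nonneg_left (hSb s) (norm_nonneg _))
  have iT : ∀ k : Fin M, IntervalIntegrable (fun s => (g (τ (Fin.castAdd M k)) s -
      g (τ (Fin.natAdd M k)) s) * ip (a k) (ff p τ s)) volume 0 1 := fun k => by
    refine ii_of_bdd (((hgm _).sub (hgm _)).mul (ip_meas hF)) (2 * (‖a k‖ * S)) fun s => ?_
    rw [abs_mul]
    have h1 := g_abs (s := s) (h (Fin.castAdd M k)).1 (h (Fin.castAdd M k)).2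
    have h2 := g_abs (s := s) (h (Fin.natAdd M k)).1 (h (Fin.natAdd M k)).2
    have h3 := abs_sub (g (τ (Fin.castAdd M k)) s) (g (τ (Fin.natAdd M k)) s)
    refine mul_le_mul (by linarith) ?_ (abs_nonneg _) (by norm_num)
    exact (ip_abs_le _ _).trans (mul_le_mul_of_nonneg_left (hSb s) (norm_nonneg _))
  have e1 : ∀ s, ip (ff p τ s) (ff p τ s) = ∑ k : Fin M, (g (τ (Fin.castAdd M k)) s -
      g (τ (Fin.natAdd M k)) s) * ip (a k) (ff p τ s) := by
    intro s
    have e2 : ip (ff p τ s) (ff p τ s) = ∑ i, g (τ i) s * ip (p i) (ff p τ s) := by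
      conv_lhs => rw [show ip (ff p τ s) (ff p τ s) =
        ip (∑ i, ((g (τ i) s : ℝ) : ℂ) * p i) (ff p τ s) from rfl]
      rw [ip_sum_left]
      exact Finset.sum_congr rfl fun i _ => ip_mul_left _ _ _
    rw [e2, Fin.sum_univ_add, ← Finset.sum_add_distrib]
    refine Finset.sum_congr rfl fun k _ => ?_
    have e3 : p (Fin.castAdd M k) = a k := by rw [hp, Fin.append_left]
    have e4 : p (Fin.natAdd M k) = -a k := by rw [hp, Fin.append_right]
    rw [e3, e4]
    have e5 : ip (-a k) (ff p τ s) = -ip (a k) (ff p τ s) := by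
      unfold ip; simp; ring
    rw [e5]
    ring
  have h1 : V ≤ 1 / 2 * ∑ k, ∫ s in (0:ℝ)..1, |ip (a k) (ff p τ s)| := by
    rw [hV]
    simp only [e1]
    rw [intervalIntegral.integral_finsetSum fun k _ => iT k, Finset.mul_sum]
    exact Finset.sum_le_sum fun k _ => pair_bound p h (a k) (h _).1 (h _).2 (h _).1 (h _).2
  rw [← intervalIntegral.integral_finsetSum fun k _ => iA k] at h1
  have iAs : IntervalIntegrable (fun s => ∑ k, |ip (a k) (ff p τ s)|) volume 0 1 := by
    refine ii_of_bdd (Finset.measurable_sum _ fun k _ => (ip_meas hF).abs)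
      (2 * κ * S) fun s => ?_
    rw [abs_of_nonneg (Finset.sum_nonneg fun k _ => abs_nonneg _)]
    exact (ha _).trans (mul_le_mul_of_nonneg_left (hSb s) (by positivity))
  have iQ : IntervalIntegrable (fun s => ip (ff p τ s) (ff p τ s) + κ ^ 2) volume 0 1 :=
    hv.1.add intervalIntegrable_const
  have h2 : ∫ s in (0:ℝ)..1, ∑ k, |ip (a k) (ff p τ s)| ≤
      ∫ s in (0:ℝ)..1, (ip (ff p τ s) (ff p τ s) + κ ^ 2) := by
    refine intervalIntegral.integral_mono_on zero_le_one iAs iQ fun s _ => ?_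
    have h3 := ha (ff p τ s)
    have h4 : ip (ff p τ s) (ff p τ s) = ‖ff p τ s‖ ^ 2 := H16F.H13.ip_self_eq _
    rw [h4]
    nlinarith [sq_nonneg (‖ff p τ s‖ - κ)]
  rw [intervalIntegral.integral_add hv.1 intervalIntegrable_const,
    intervalIntegral.integral_const] at h2
  simp only [sub_zero, one_smul] at h2
  rw [hv.2]
  linarith

/-! ### Directions -/

/-- the direction with angle `δ k` -/
noncomputable def ek (δ : ℝ) (k : ℕ) : ℂ := Complex.exp (((δ * k : ℝ) : ℂ) * I)

theorem ek_norm (δ : ℝ) (k : ℕ) : ‖ek δ k‖ = 1 := Complex.norm_exp_ofReal_mul_I _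

theorem ek_re (δ : ℝ) (k : ℕ) : (ek δ k).re = Real.cos (δ * k) := Complex.exp_ofReal_mul_I_re _

theorem ek_im (δ : ℝ) (k : ℕ) : (ek δ k).im = Real.sin (δ * k) := Complex.exp_ofReal_mul_I_im _

theorem int_abs_cos (x : ℝ) : ∫ θ in x..(x + Real.pi), |Real.cos θ| = 2 := by
  have hper : Function.Periodic (fun θ : ℝ => |Real.cos θ|) Real.pi := fun θ => by
    show |Real.cos (θ + Real.pi)| = |Real.cos θ|
    rw [Real.cos_add_pi, abs_neg]
  rw [hper.intervalIntegral_add_eq x (-(Real.pi / 2))]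
  have e1 : -(Real.pi / 2) + Real.pi = Real.pi / 2 := by ring
  rw [e1]
  have h1 : ∫ θ in (-(Real.pi / 2))..(Real.pi / 2), |Real.cos θ| =
      ∫ θ in (-(Real.pi / 2))..(Real.pi / 2), Real.cos θ := by
    refine intervalIntegral.integral_congr fun θ hθ => ?_
    rw [Set.uIcc_of_le (by linarith [Real.pi_pos])] at hθ
    exact abs_of_nonneg (Real.cos_nonneg_of_neg_pi_div_two_le_of_le hθ.1 hθ.2)
  rw [h1, integral_cos, Real.sin_neg, Real.sin_pi_div_two]
  norm_num

theorem abs_cos_le (x r : ℝ) (hr : 0 ≤ r) (hr' : r ≤ Real.pi) :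
    |Real.cos x| * (2 * Real.sin r) ≤ ∫ θ in (x - r)..(x + r), |Real.cos θ| := by
  have h1 : ∫ θ in (x - r)..(x + r), Real.cos θ = Real.cos x * (2 * Real.sin r) := by
    rw [integral_cos, Real.sin_add, Real.sin_sub]
    ring
  have h2 : |Real.cos x| * (2 * Real.sin r) = |Real.cos x * (2 * Real.sin r)| := by
    rw [abs_mul, abs_of_nonneg (mul_nonneg two_pos.le (Real.sin_nonneg_of_nonneg_of_le_pi hr hr'))]
  rw [h2, ← h1]
  exact intervalIntegral.abs_integral_le_integral_abs (by linarith)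

theorem sum_abs_cos (M : ℕ) (hM : 1 ≤ M) (φ : ℝ) :
    ∑ k ∈ Finset.range M, |Real.cos (Real.pi / M * k - φ)| ≤ 1 / Real.sin (Real.pi / (2 * M)) := by
  have hM0 : (0:ℝ) < M := by exact_mod_cast hM
  set δ : ℝ := Real.pi / M with hδ
  have hδ0 : 0 < δ := div_pos Real.pi_pos hM0
  have hδ1 : δ ≤ Real.pi := div_le_self Real.pi_pos.le (by exact_mod_cast hM)
  have e0 : Real.pi / (2 * M) = δ / 2 := by rw [hδ]; field_simp
  have hs : 0 < Real.sin (δ / 2) := Real.sin_pos_of_pos_of_lt_pi (by linarith) (by linarith)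
  rw [e0, le_div_iff₀ hs]
  have h1 : ∀ k ∈ Finset.range M, |Real.cos (δ * k - φ)| * (2 * Real.sin (δ / 2)) ≤
      ∫ θ in ((δ * k - φ) - δ / 2)..((δ * (k + 1 : ℕ) - φ) - δ / 2), |Real.cos θ| := by
    intro k _
    have e1 : (δ * (k + 1 : ℕ) - φ) - δ / 2 = (δ * k - φ) + δ / 2 := by push_cast; ring
    rw [e1]
    exact abs_cos_le _ _ (by linarith) (by linarith)
  have h2 := Finset.sum_le_sum h1
  rw [← Finset.sum_mul, intervalIntegral.sum_integral_adjacent_intervals
    (a := fun k : ℕ => (δ * k - φ) - δ / 2)] at h2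
  · have e2 : (δ * (M : ℕ) - φ) - δ / 2 = ((δ * (0 : ℕ) - φ) - δ / 2) + Real.pi := by
      rw [hδ]; push_cast; field_simp; ring
    rw [e2, int_abs_cos] at h2
    linarith
  · intro k _
    exact (Real.continuous_cos.abs).intervalIntegrable _ _

theorem sum_ip_ek (M : ℕ) (hM : 1 ≤ M) (v : ℂ) :
    ∑ k ∈ Finset.range M, |ip (ek (Real.pi / M) k) v| ≤ ‖v‖ / Real.sin (Real.pi / (2 * M)) := by
  have h1 := sum_abs_cos M hM (Complex.arg v)
  have h2 : ∀ k : ℕ, |ip (ek (Real.pi / M) k) v| = ‖v‖ * |Real.cos (Real.pi / M * k - Complex.arg v)|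
      := by
    intro k
    have e1 : ip (ek (Real.pi / M) k) v = ‖v‖ * Real.cos (Real.pi / M * k - Complex.arg v) := by
      unfold ip
      rw [ek_re, ek_im, Real.cos_sub, ← Complex.norm_mul_cos_arg v, ← Complex.norm_mul_sin_arg v]
      simp only [Complex.norm_mul_cos_arg, Complex.norm_mul_sin_arg]
      rw [mul_add]
      have a1 := Complex.norm_mul_cos_arg v
      have a2 := Complex.norm_mul_sin_arg v
      linear_combination (-Real.cos (Real.pi / M * k)) * a1 + (-Real.sin (Real.pi / M * k)) * a2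
    rw [e1, abs_mul, abs_of_nonneg (norm_nonneg v)]
  simp only [h2]
  rw [← Finset.mul_sum]
  refine (mul_le_mul_of_nonneg_left h1 (norm_nonneg _)).trans (le_of_eq ?_)
  ring

/-! ### The perimeter is at most the perimeter of the circumscribed polygon -/

theorem sublin_continuous {h : ℂ → ℝ} (hh : Sublin h) : Continuous h := by
  have hc : ConvexOn ℝ Set.univ h := by
    refine ⟨convex_univ, fun x _ y _ a b ha hb _ => ?_⟩
    have e1 : a • x = ((a : ℝ) : ℂ) * x := Complex.real_smul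
    have e2 : b • y = ((b : ℝ) : ℂ) * y := Complex.real_smul
    rw [e1, e2]
    refine (hh.1 _ _).trans ?_
    rw [hh.2 a x ha, hh.2 b y hb]
    simp
  exact hc.locallyLipschitz.continuous

theorem trig_re (A a b : ℝ) : Real.cos (A + b) * Real.sin (a + b) =
    Real.sin a * Real.cos A + Real.sin b * Real.cos (A + (a + b)) := by
  rw [Real.cos_add A b, Real.cos_add A (a + b), Real.sin_add, Real.cos_add]
  linear_combination (Real.cos A * Real.sin a) * (Real.sin_sq_add_cos_sq b)

theorem trig_im (A a b : ℝ) : Real.sin (A + b) * Real.sin (a + b) =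
    Real.sin a * Real.sin A + Real.sin b * Real.sin (A + (a + b)) := by
  rw [Real.sin_add A b, Real.sin_add A (a + b), Real.sin_add, Real.cos_add]
  linear_combination (Real.sin A * Real.sin a) * (Real.sin_sq_add_cos_sq b)

theorem piece {h : ℂ → ℝ} (hh : Sublin h) {δ : ℝ} (h0 : 0 < δ) (h1 : δ < Real.pi) (k : ℕ) :
    ∫ θ in (δ * k)..(δ * (k + 1 : ℕ)), h (Complex.exp (θ * I)) ≤
      Real.tan (δ / 2) * (h (ek δ k) + h (ek δ (k + 1))) := by
  have hsin : 0 < Real.sin δ := Real.sin_pos_of_pos_of_lt_pi h0 h1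
  have hcont := sublin_continuous hh
  have hc1 : Continuous fun θ : ℝ => h (Complex.exp (θ * I)) := by
    refine hcont.comp ?_
    fun_prop
  have e0 : δ * (k + 1 : ℕ) = δ * k + δ := by push_cast; ring
  rw [e0]
  have hpt : ∀ θ ∈ Set.Icc (δ * k) (δ * k + δ), h (Complex.exp (θ * I)) ≤
      (Real.sin (δ * k + δ - θ) * h (ek δ k) + Real.sin (θ - δ * k) * h (ek δ (k + 1)))
        / Real.sin δ := by
    intro θ hθ
    have a0 : 0 ≤ Real.sin (δ * k + δ - θ) :=
      Real.sin_nonneg_of_nonneg_of_le_pi (by linarith [hθ.2]) (by linarith [hθ.1])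
    have b0 : 0 ≤ Real.sin (θ - δ * k) :=
      Real.sin_nonneg_of_nonneg_of_le_pi (by linarith [hθ.1]) (by linarith [hθ.2])
    have e1 : Complex.exp (θ * I) = ((Real.sin (δ * k + δ - θ) / Real.sin δ : ℝ) : ℂ) * ek δ k +
        ((Real.sin (θ - δ * k) / Real.sin δ : ℝ) : ℂ) * ek δ (k + 1) := by
      have r1 : (ek δ (k + 1)).re = Real.cos (δ * k + δ) := by
        rw [ek_re, ← e0]
      have r2 : (ek δ (k + 1)).im = Real.sin (δ * k + δ) := by
        rw [ek_im, ← e0]
      apply Complex.ext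
      · rw [Complex.exp_ofReal_mul_I_re, Complex.add_re, Complex.re_ofReal_mul,
          Complex.re_ofReal_mul, ek_re, r1]
        rw [div_mul_eq_mul_div, div_mul_eq_mul_div, ← add_div, eq_div_iff hsin.ne']
        have t := trig_re (δ * k) (δ * k + δ - θ) (θ - δ * k)
        have t1 : δ * k + (θ - δ * k) = θ := by ring
        have t2 : δ * k + δ - θ + (θ - δ * k) = δ := by ring
        rw [t1, t2] at t
        exact t
      · rw [Complex.exp_ofReal_mul_I_im, Complex.add_im, Complex.im_ofReal_mul,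
          Complex.im_ofReal_mul, ek_im, r2]
        rw [div_mul_eq_mul_div, div_mul_eq_mul_div, ← add_div, eq_div_iff hsin.ne']
        have t := trig_im (δ * k) (δ * k + δ - θ) (θ - δ * k)
        have t1 : δ * k + (θ - δ * k) = θ := by ring
        have t2 : δ * k + δ - θ + (θ - δ * k) = δ := by ring
        rw [t1, t2] at t
        exact t
    rw [e1]
    refine (hh.1 _ _).trans (le_of_eq ?_)
    rw [hh.2 _ _ (div_nonneg a0 hsin.le), hh.2 _ _ (div_nonneg b0 hsin.le)]
    ring
  have hc2 : Continuous fun θ : ℝ => (Real.sin (δ * k + δ - θ) * h (ek δ k) +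
      Real.sin (θ - δ * k) * h (ek δ (k + 1))) / Real.sin δ := by
    fun_prop
  have h2 := intervalIntegral.integral_mono_on (a := δ * k) (b := δ * k + δ) (μ := volume)
    (by linarith) (hc1.intervalIntegrable _ _) (hc2.intervalIntegrable _ _) hpt
  refine h2.trans (le_of_eq ?_)
  have i1 : ∫ θ in (δ * k)..(δ * k + δ), Real.sin (δ * k + δ - θ) = 1 - Real.cos δ := by
    rw [intervalIntegral.integral_comp_sub_left (fun x => Real.sin x) (δ * k + δ), integral_sin]
    have e1 : δ * k + δ - (δ * k + δ) = 0 := by ring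
    have e2 : δ * k + δ - δ * k = δ := by ring
    rw [e1, e2, Real.cos_zero]
  have i2 : ∫ θ in (δ * k)..(δ * k + δ), Real.sin (θ - δ * k) = 1 - Real.cos δ := by
    rw [intervalIntegral.integral_comp_sub_right (fun x => Real.sin x) (δ * k), integral_sin]
    have e1 : δ * k - δ * k = 0 := by ring
    have e2 : δ * k + δ - δ * k = δ := by ring
    rw [e1, e2, Real.cos_zero]
  rw [intervalIntegral.integral_div, intervalIntegral.integral_add, intervalIntegral.integral_mul_const,
    intervalIntegral.integral_mul_const, i1, i2]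
  · have e1 : 1 - Real.cos δ = 2 * Real.sin (δ / 2) ^ 2 := by
      have := Real.cos_sq (δ / 2)
      have h3 := Real.sin_sq_add_cos_sq (δ / 2)
      have e3 : 2 * (δ / 2) = δ := by ring
      rw [e3] at this
      linarith
    have e2 : Real.sin δ = 2 * Real.sin (δ / 2) * Real.cos (δ / 2) := by
      rw [← Real.sin_two_mul]; ring_nf
    have h4 : 0 < Real.sin (δ / 2) := Real.sin_pos_of_pos_of_lt_pi (by linarith) (by linarith)
    have h5 : 0 < Real.cos (δ / 2) := Real.cos_pos_of_mem_Ioo ⟨by linarith, by linarith⟩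
    rw [e1, e2, Real.tan_eq_sin_div_cos]
    field_simp
  · exact Continuous.intervalIntegrable (by fun_prop) _ _
  · exact Continuous.intervalIntegrable (by fun_prop) _ _

theorem lam_le {h : ℂ → ℝ} (hh : Sublin h) {M : ℕ} (hM : 2 ≤ M) :
    lam h ≤ ∑ k ∈ Finset.range M, 2 * Real.tan (Real.pi / (2 * M)) *
      (h (ek (Real.pi / M) k) + h (-ek (Real.pi / M) k)) := by
  have hM0 : (0:ℝ) < M := by exact_mod_cast (by omega : 0 < M)
  have hM2 : (2:ℝ) ≤ M := by exact_mod_cast hM
  set δ : ℝ := Real.pi / M with hδ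
  have hδ0 : 0 < δ := div_pos Real.pi_pos hM0
  have hδ1 : δ < Real.pi := by
    rw [hδ, div_lt_iff₀ hM0]
    nlinarith [Real.pi_pos]
  have e0 : Real.pi / (2 * M) = δ / 2 := by rw [hδ]; field_simp
  rw [e0]
  have hcont := sublin_continuous hh
  have hc1 : Continuous fun θ : ℝ => h (Complex.exp (θ * I)) := by
    refine hcont.comp ?_
    fun_prop
  have e1 : lam h = ∑ k ∈ Finset.range (M + M),
      ∫ θ in (δ * k)..(δ * (k + 1 : ℕ)), h (Complex.exp (θ * I)) := by
    rw [intervalIntegral.sum_integral_adjacent_intervals (a := fun k : ℕ => δ * k)]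
    · unfold lam
      congr 1
      · simp
      · rw [hδ]; push_cast; field_simp; ring
    · intro k _
      exact hc1.intervalIntegrable _ _
  have h1 : lam h ≤ ∑ k ∈ Finset.range (M + M), Real.tan (δ / 2) * (h (ek δ k) + h (ek δ (k + 1))) := by
    rw [e1]
    exact Finset.sum_le_sum fun k _ => piece hh hδ0 hδ1 k
  have e2 : ek δ (M + M) = ek δ 0 := by
    apply Complex.ext
    · rw [ek_re, ek_re]
      have : δ * ((M + M : ℕ) : ℝ) = 2 * Real.pi := by rw [hδ]; push_cast; field_simp; ring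
      rw [this]; simp
    · rw [ek_im, ek_im]
      have : δ * ((M + M : ℕ) : ℝ) = 2 * Real.pi := by rw [hδ]; push_cast; field_simp; ring
      rw [this]; simp
  have e3 : ∑ k ∈ Finset.range (M + M), h (ek δ (k + 1)) =
      ∑ k ∈ Finset.range (M + M), h (ek δ k) := by
    have a1 := Finset.sum_range_succ (fun k => h (ek δ k)) (M + M)
    have a2 := Finset.sum_range_succ' (fun k => h (ek δ k)) (M + M)
    rw [a1] at a2
    simp only [e2] at a2
    linarith
  have e4 : ∀ k, ek δ (M + k) = -ek δ k := by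
    intro k
    have a1 : δ * ((M + k : ℕ) : ℝ) = δ * k + Real.pi := by rw [hδ]; push_cast; field_simp; ring
    apply Complex.ext
    · rw [ek_re, Complex.neg_re, ek_re, a1, Real.cos_add_pi]
    · rw [ek_im, Complex.neg_im, ek_im, a1, Real.sin_add_pi]
  refine h1.trans (le_of_eq ?_)
  rw [← Finset.mul_sum, Finset.sum_add_distrib, e3, Finset.sum_range_add]
  simp only [e4]
  rw [← Finset.sum_add_distrib, ← Finset.mul_sum]
  ring

/-! ### The tail of the perimeter -/

/-- the tail of the perimeter of the convex hull of the Brownian loop -/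
theorem ld (ε : ℝ) (hε : 0 < ε) (hε1 : ε < 1) : ∃ C : ℝ, ∀ y : ℝ, 0 ≤ y →
    PP {ω | y ≤ lam (hs ω)} ≤ ENNReal.ofReal (C * Real.exp (-((1 - ε) * y ^ 2 / 4))) := by
  -- choice of the number of directions
  obtain ⟨M, hM2, hMc⟩ : ∃ M : ℕ, 2 ≤ M ∧
      1 - ε ≤ (1 - ε / 2) * Real.cos (Real.pi / (2 * M)) ^ 2 := by
    have h1 : Tendsto (fun M : ℕ => Real.pi / (2 * (M : ℝ))) atTop (𝓝 0) := by
      refine Tendsto.div_atTop tendsto_const_nhds ?_
      exact tendsto_natCast_atTop_atTop.const_mul_atTop two_pos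
    have h2 : Tendsto (fun M : ℕ => (1 - ε / 2) * Real.cos (Real.pi / (2 * (M : ℝ))) ^ 2) atTop
        (𝓝 ((1 - ε / 2) * Real.cos 0 ^ 2)) :=
      (((Real.continuous_cos.tendsto 0).comp h1).pow 2).const_mul _
    rw [Real.cos_zero] at h2
    have h3 : 1 - ε < (1 - ε / 2) * 1 ^ 2 := by linarith
    obtain ⟨M, hM⟩ := ((h2.eventually_const_lt h3).and (eventually_ge_atTop 2)).exists
    exact ⟨M, hM.2, hM.1.le⟩
  have hM0 : (0:ℝ) < M := by exact_mod_cast (by omega : 0 < M)
  have hM2' : (2:ℝ) ≤ M := by exact_mod_cast hM2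
  set r : ℝ := Real.pi / (2 * M) with hr
  have hr0 : 0 < r := by positivity
  have hr1 : r < Real.pi / 2 := by
    rw [hr, div_lt_iff₀ (by positivity)]
    nlinarith [Real.pi_pos]
  have hcos : 0 < Real.cos r := Real.cos_pos_of_mem_Ioo ⟨by linarith, hr1⟩
  have hsin : 0 < Real.sin r := Real.sin_pos_of_pos_of_lt_pi hr0 (by linarith [Real.pi_pos])
  have htan : 0 < Real.tan r := Real.tan_pos_of_pos_of_lt_pi_div_two hr0 hr1
  set w : ℝ := 2 * Real.tan r with hw
  have hw0 : 0 < w := by positivity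
  set e : Fin M → ℂ := fun k => ek (Real.pi / M) k with he
  set U : Fin (M + M) → ℂ := Fin.append e fun k => -e k with hU
  have hUn : ∀ i, ‖U i‖ = 1 := by
    intro i
    refine Fin.addCases (fun k => ?_) (fun k => ?_) i
    · rw [hU, Fin.append_left]; exact ek_norm _ _
    · rw [hU, Fin.append_right, norm_neg]; exact ek_norm _ _
  have hvar : ∀ τ, Tm τ → vr (fun i => (((fun _ => w) i : ℝ) : ℂ) * U i) τ
      ≤ 2 * (1 / Real.cos r) ^ 2 := by
    intro τ hτ
    have e1 : (fun i => (((fun _ => w) i : ℝ) : ℂ) * U i) =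
        Fin.append (fun k => (w : ℂ) * e k) (fun k => -((w : ℂ) * e k)) := by
      funext i
      refine Fin.addCases (fun k => ?_) (fun k => ?_) i
      · rw [hU, Fin.append_left, Fin.append_left]
      · rw [hU, Fin.append_right, Fin.append_right, mul_neg]
    rw [e1]
    refine vr_le_of _ (by positivity) (fun v => ?_) hτ
    have e2 : ∑ k, |ip ((w : ℂ) * e k) v| = w * ∑ k ∈ Finset.range M, |ip (ek (Real.pi / M) k) v| := by
      rw [← Fin.sum_univ_eq_sum_range (fun k => |ip (ek (Real.pi / M) k) v|), Finset.mul_sum]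
      refine Finset.sum_congr rfl fun k _ => ?_
      rw [ip_mul_left, abs_mul, abs_of_pos hw0]
    rw [e2]
    refine (mul_le_mul_of_nonneg_left (sum_ip_ek M (by omega) v) hw0.le).trans (le_of_eq ?_)
    rw [← hr, hw, Real.tan_eq_sin_div_cos]
    field_simp
  obtain ⟨C, hC⟩ := H16F.H13.tail13 (M + M) U (fun _ => w) (2 * (1 / Real.cos r) ^ 2) hUn
    (fun _ => hw0.le) (by positivity) hvar (ε / 2) (by linarith) (by linarith)
  refine ⟨max C 0, fun y hy => ?_⟩
  have h1 : PP {ω | y ≤ lam (hs ω)} ≤ PP {ω | y ≤ ∑ i, (fun _ => w) i * hs ω (U i)} := by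
    refine measure_mono_ae ?_
    filter_upwards [H16F.H13.ae_sublin] with ω hω hy'
    have h2 : y ≤ lam (hs ω) := hy'
    show y ≤ ∑ i, (fun _ => w) i * hs ω (U i)
    refine h2.trans ((lam_le hω hM2).trans (le_of_eq ?_))
    rw [Fin.sum_univ_add, ← Finset.sum_add_distrib,
      ← Fin.sum_univ_eq_sum_range (fun k => 2 * Real.tan (Real.pi / (2 * M)) *
        (hs ω (ek (Real.pi / M) k) + hs ω (-ek (Real.pi / M) k)))]
    refine Finset.sum_congr rfl fun k _ => ?_
    rw [hU, Fin.append_left, Fin.append_right]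
    show 2 * Real.tan (Real.pi / (2 * M)) * _ = w * _ + w * _
    rw [← hr, ← hw]
    ring
  refine h1.trans ((hC y hy).trans (ENNReal.ofReal_le_ofReal ?_))
  have h3 : Real.exp (-((1 - ε / 2) * y ^ 2 / (2 * (2 * (1 / Real.cos r) ^ 2)))) ≤
      Real.exp (-((1 - ε) * y ^ 2 / 4)) := by
    refine Real.exp_le_exp.2 (neg_le_neg ?_)
    have e1 : (1 - ε / 2) * y ^ 2 / (2 * (2 * (1 / Real.cos r) ^ 2)) =
        ((1 - ε / 2) * Real.cos r ^ 2) * y ^ 2 / 4 := by
      field_simp
      ring
    rw [e1]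
    have := mul_le_mul_of_nonneg_right hMc (sq_nonneg y)
    linarith
  calc C * Real.exp (-((1 - ε / 2) * y ^ 2 / (2 * (2 * (1 / Real.cos r) ^ 2))))
      ≤ max C 0 * Real.exp (-((1 - ε / 2) * y ^ 2 / (2 * (2 * (1 / Real.cos r) ^ 2)))) :=
        mul_le_mul_of_nonneg_right (le_max_left _ _) (Real.exp_pos _).le
    _ ≤ max C 0 * Real.exp (-((1 - ε) * y ^ 2 / 4)) :=
        mul_le_mul_of_nonneg_left h3 (le_max_right _ _)

end Pool.Agent.AEU62
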