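import Pool.Agent.Helper62_AEU.LD
import Pool.Agent.Helper25_AEU.Defs
import Pool.Agent.Helper10_Fine.Core

/-!
AEU, Part I: expectations over the event that the perimeter of the loop is large.
-/

namespace Pool.Agent.AEU.H62

open MeasureTheory Complex Filter Topology ProbabilityTheory Pool.Agent.H16Iso Pool.Agent.H62T
open Pool.Agent.H62T.H9 Pool.Agent.H16F.H10
open Pool.Agent.H16F (Sublin ind)
open scoped ENNReal NNReal

theorem lam_smul (c : ℝ) (h : ℂ → ℝ) : AEU.lam (fun w => c * h w) = c * AEU.lam h := by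
  unfold AEU.lam
  rw [← intervalIntegral.integral_const_mul]

/-- the probability that the perimeter of the loop of duration `t` is at least `L` -/
theorem ld_scaled {L : ℝ} (hL : 0 ≤ L) : ∀ ε : ℝ, 0 < ε → ε < 1 → ∃ C : ℝ, ∀ t : ℝ, 0 < t → t ≤ 1 →
    PP {ω | L ≤ AEU.lam (fun w => Real.sqrt t * hs ω w)} ≤
      ENNReal.ofReal (C * Real.exp (-((1 - ε) * (L / 2) ^ 2 / t))) := by
  have h := tail_scale (X := fun ω => AEU.lam (hs ω) / 2) (d := L / 2) (by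
    intro ε h0 h1
    obtain ⟨C, hC⟩ := AEU62.ld ε h0 h1
    refine ⟨C, fun y hy => ?_⟩
    have h2 := hC (2 * y) (by linarith)
    have e1 : {ω : Sp | y ≤ AEU.lam (hs ω) / 2} = {ω : Sp | 2 * y ≤ AEU62.lam (hs ω)} := by
      ext ω
      show y ≤ AEU.lam (hs ω) / 2 ↔ 2 * y ≤ AEU.lam (hs ω)
      constructor <;> intro h <;> linarith
    have e2 : (1 - ε) * (2 * y) ^ 2 / 4 = (1 - ε) * y ^ 2 := by ring
    rw [e1, ← e2]
    exact h2) (by linarith)
  intro ε h0 h1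
  obtain ⟨C, hC⟩ := h ε h0 h1
  refine ⟨C, fun t ht ht1 => ?_⟩
  have e1 : {ω : Sp | L ≤ AEU.lam (fun w => Real.sqrt t * hs ω w)} =
      {ω : Sp | L / 2 ≤ Real.sqrt t * (AEU.lam (hs ω) / 2)} := by
    ext ω
    show L ≤ AEU.lam (fun w => Real.sqrt t * hs ω w) ↔ L / 2 ≤ Real.sqrt t * (AEU.lam (hs ω) / 2)
    rw [lam_smul]
    constructor <;> intro h <;> linarith
  rw [e1]
  exact hC t ht ht1

/-- LDM: random variables with all moments on the event that the perimeter is at least `L` -/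
theorem ldm {T : Sp → ℝ} (hT : AM T) (hT0 : ∀ ω, 0 ≤ T ω) {L : ℝ} (hL : 0 ≤ L) :
    ∀ ε : ℝ, 0 < ε → ε < 1 → ∃ C : ℝ, 0 ≤ C ∧ ∀ t : ℝ, 0 < t → t ≤ 1 → ∀ g : Sp → ℝ,
      (∀ᵐ ω ∂PP, |g ω| ≤ T ω * ind (L ≤ AEU.lam fun w => Real.sqrt t * hs ω w)) →
        |∫ ω, g ω ∂PP| ≤ C * Real.exp (-((1 - ε) * (L / 2) ^ 2 / t)) :=
  tail_int hT hT0 (A := fun t => {ω | L ≤ AEU.lam (fun w => Real.sqrt t * hs ω w)}) (ld_scaled hL)

end Pool.Agent.AEU.H62
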